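import Pool.Agent.Lib.MP_a78e1f_lc.R.Iface

/-!
# KAP: the embedding of `A` into its random extension
-/

universe u v w

open Cardinal Filter MeasureTheory

namespace Pool.Agent.Lib.MP_a78e1f_lc.H22

open Pool.Agent.Lib.MP_100a6c_lc
open Pool.Agent.Lib.MP_c5d73d_lc.F (pr)
open Pool.Agent.Lib.MP_e6fef2_lc
open Pool.Agent.Lib.MP_6d445e_gt

section

variable {B : Type v} [CompleteBooleanAlgebra B]

theorem le_of_inf_compl {a b : B} (h : a ⊓ bᶜ = ⊥) : a ≤ b := by
  rw [← disjoint_iff, ← le_compl_iff_disjoint_right, compl_compl] at h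
  exact h

theorem eq_iSup_inf {ι : Type w} {p : ι → Prop} (r : B) (f : ι → B)
    (h : (⨆ i, ⨆ _ : p i, f i) = ⊤) : r = ⨆ i, ⨆ _ : p i, r ⊓ f i := by
  calc r = r ⊓ ⊤ := (inf_top_eq r).symm
    _ = r ⊓ ⨆ i, ⨆ _ : p i, f i := by rw [h]
    _ = ⨆ i, ⨆ _ : p i, r ⊓ f i := by
      rw [inf_iSup_eq]
      refine iSup_congr fun σ => ?_
      rw [inf_iSup_eq]

end

section

variable {A : Type u} [CompleteBooleanAlgebra A]

theorem nl_empty : nl (∅ : Set (Pt A)) := by
  refine Filter.Eventually.of_forall fun g => ?_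
  have : sec (∅ : Set (Pt A)) g = ∅ := by
    ext x
    simp [sec]
  rw [this]
  exact measure_empty

/-- The key formula. -/
theorem mkR_le_kap (hRapi : RapiStatement.{u}) (hMeas : MeasStatement.{u}) (hCm : CmStatement)
    {E : Set (Pt A)} (hE : MeasurableSet E) (c : A) :
    mkR E ≤ kap c ↔ (bv fun g => 0 < cm.real (sec E g)) ≤ c := by
  have hp : IsProbabilityMeasure cm := hCm.1
  obtain ⟨R1, -⟩ := hRapi A
  obtain ⟨M1, M2, -, M4, -⟩ := hMeas A
  have hm : MeasurableSet {g : Ult A | 0 < cm.real (sec E g)} :=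
    measurableSet_lt measurable_const (M1 E hE)
  have hb := M2 (fun g => 0 < cm.real (sec E g)) hm
  unfold kap
  rw [R1 E _ hE (M4 c), le_iff_ae]
  constructor
  · intro h
    filter_upwards [h, hb] with g hg hbg hgb
    by_contra hc
    have h1 : sec (E \ {p : Pt A | c ∈ p.1}) g = sec E g := by
      ext x
      simp only [sec, Set.mem_ofPred_eq, Set.mem_sdiff]
      exact ⟨fun h => h.1, fun h => ⟨h, hc⟩⟩
    rw [h1] at hg
    have h2 := hbg.1 hgb
    rw [Measure.real, hg] at h2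
    simp at h2
  · intro h
    unfold nl
    filter_upwards [h, hb] with g hg hbg
    by_cases hc : c ∈ g
    · have h1 : sec (E \ {p : Pt A | c ∈ p.1}) g = ∅ := by
        ext x
        simp only [sec, Set.mem_ofPred_eq, Set.mem_sdiff, Set.mem_empty_iff_false, iff_false]
        intro h
        exact h.2 hc
      rw [h1]
      exact measure_empty
    · have h1 : sec (E \ {p : Pt A | c ∈ p.1}) g ⊆ sec E g := by
        intro x hx
        exact hx.1
      refine measure_mono_null h1 ?_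
      by_contra hne
      apply hc
      apply hg
      apply hbg.2
      exact ENNReal.toReal_pos hne (measure_ne_top _ _)

theorem kap_compl (hRapi : RapiStatement.{u}) (hMeas : MeasStatement.{u}) (a : A) :
    kap aᶜ = (kap a)ᶜ := by
  obtain ⟨R1, R2, R3, -⟩ := hRapi A
  obtain ⟨M1, M2, -, M4, -⟩ := hMeas A
  unfold kap
  rw [← R3 _ (M4 a)]
  congr 1
  ext p
  simp only [Set.mem_ofPred_eq, Set.mem_compl_iff]
  exact p.1.mem_compl

theorem bv_ne_bot (hMeas : MeasStatement.{u}) (hCm : CmStatement) (p : Po A) :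
    (bv fun g => 0 < cm.real (sec p.1 g)) ≠ (⊥ : A) := by
  have hp : IsProbabilityMeasure cm := hCm.1
  obtain ⟨M1, M2, -, M4, -⟩ := hMeas A
  have hm : MeasurableSet {g : Ult A | 0 < cm.real (sec p.1 g)} :=
    measurableSet_lt measurable_const (M1 p.1 p.2.1)
  have hb := M2 (fun g => 0 < cm.real (sec p.1 g)) hm
  intro h
  rw [h] at hb
  apply p.2.2
  unfold nl
  filter_upwards [hb] with g hg
  by_contra hne
  exact g.not_bot (hg.2 (ENNReal.toReal_pos hne (measure_ne_top _ _)))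

theorem mkR_kap (hMeas : MeasStatement.{u}) (hCm : CmStatement)
    (a : A) : (bv fun g => 0 < cm.real (sec {p : Pt A | a ∈ p.1} g)) = a := by
  have hp : IsProbabilityMeasure cm := hCm.1
  obtain ⟨M1, M2, -, M4, -⟩ := hMeas A
  have hm : MeasurableSet {g : Ult A | 0 < cm.real (sec {p : Pt A | a ∈ p.1} g)} :=
    measurableSet_lt measurable_const (M1 _ (M4 a))
  have hb := M2 (fun g => 0 < cm.real (sec {p : Pt A | a ∈ p.1} g)) hm
  refine eq_of_ae ?_
  filter_upwards [hb] with g hg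
  rw [hg]
  by_cases ha : a ∈ g
  · have h1 : sec {p : Pt A | a ∈ p.1} g = Set.univ := by
      ext x
      simp [sec, ha]
    rw [h1]
    simp [ha]
  · have h1 : sec {p : Pt A | a ∈ p.1} g = ∅ := by
      ext x
      simp [sec, ha]
    rw [h1]
    simp [ha]

theorem kap_le (hRapi : RapiStatement.{u}) (hMeas : MeasStatement.{u}) (hCm : CmStatement)
    (a c : A) : (kap a : RA A) ≤ kap c ↔ a ≤ c := by
  have M4 := (hMeas A).2.2.2.1
  have h := mkR_le_kap hRapi hMeas hCm (M4 a) c
  rw [mkR_kap hMeas hCm a] at h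
  exact h

theorem kap_ce (hRapi : RapiStatement.{u}) (hMeas : MeasStatement.{u}) (hCm : CmStatement) :
    IsCE (kap : A → RA A) := by
  have hle := kap_le (A := A) hRapi hMeas hCm
  have hco := kap_compl (A := A) hRapi hMeas
  refine ⟨fun a b hab => le_antisymm ?_ ?_, hco, fun S => le_antisymm ?_ ?_⟩
  · exact (hle a b).1 hab.le
  · exact (hle b a).1 hab.ge
  · by_contra hcon
    have hne : (kap (sSup S) : RA A) ⊓ (⨆ a ∈ S, kap a)ᶜ ≠ ⊥ := by
      intro h
      exact hcon (le_of_inf_compl h)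
    obtain ⟨R1, R2, R3, R4, R5, R6, R7, R8, R9, R10⟩ := hRapi A
    obtain ⟨p, hp⟩ := R9 _ hne
    have h1 : (bv fun g => 0 < cm.real (sec p.1 g)) ≤ sSup S :=
      (mkR_le_kap hRapi hMeas hCm p.2.1 _).1 (hp.trans inf_le_left)
    have h2 : ∀ a ∈ S, (bv fun g => 0 < cm.real (sec p.1 g)) ≤ aᶜ := by
      intro a ha
      refine (mkR_le_kap hRapi hMeas hCm p.2.1 _).1 (hp.trans (inf_le_right.trans ?_))
      rw [hco]
      exact compl_le_compl (le_iSup₂_of_le a ha le_rfl)
    have h3 : (bv fun g => 0 < cm.real (sec p.1 g)) ≤ (sSup S)ᶜ := by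
      rw [sSup_eq_iSup, compl_iSup]
      refine le_iInf fun a => ?_
      rw [compl_iSup]
      exact le_iInf fun ha => h2 a ha
    have h4 : (bv fun g => 0 < cm.real (sec p.1 g)) ≤ (⊥ : A) := by
      rw [← inf_compl_eq_bot]
      exact le_inf h1 h3
    exact bv_ne_bot hMeas hCm p (le_bot_iff.1 h4)
  · refine iSup₂_le fun a ha => ?_
    exact (hle _ _).2 (le_sSup ha)

theorem prj_kap (hRapi : RapiStatement.{u}) (hMeas : MeasStatement.{u}) (hCm : CmStatement)
    {E : Set (Pt A)} (hE : MeasurableSet E) :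
    prj kap (mkR E) = bv fun g => 0 < cm.real (sec E g) := by
  unfold prj
  refine le_antisymm (sInf_le ?_) (le_sInf fun a ha => ?_)
  · exact (mkR_le_kap hRapi hMeas hCm hE _).2 le_rfl
  · exact (mkR_le_kap hRapi hMeas hCm hE _).1 ha

end

/-- KAP. -/
theorem kap (hRapi : RapiStatement.{u}) (hRep : RepStatement.{u}) (hMeas : MeasStatement.{u})
    (hCm : CmStatement) : KapStatement.{u} := by
  intro A _
  have hp : IsProbabilityMeasure cm := hCm.1
  obtain ⟨R1, R2, R3, R4, R5, R6, R7, R8, R9, R10⟩ := hRapi A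
  obtain ⟨M1, M2, M3, M4, M5, M6, M7, M8, M9⟩ := hMeas A
  obtain ⟨C1, C2, C3, C4, C5, C6, C7, C8⟩ := id hCm
  refine ⟨kap_ce hRapi hMeas hCm, fun E hE => prj_kap hRapi hMeas hCm hE, ?_, ?_, ?_, ?_, ?_⟩
  · intro r
    obtain ⟨h1, h2⟩ := (hRep A).1 r
    have h3 := prj_kap hRapi hMeas hCm h1
    rw [h2] at h3
    rw [h3]
    exact M2 _ (measurableSet_lt measurable_const (M1 _ h1))
  · intro a E hE
    unfold Pool.Agent.Lib.MP_a78e1f_lc.kap
    rw [← R2 _ _ (M4 a) hE]
    rfl
  · intro σ τ hστ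
    unfold cy
    rw [← R2 _ _ (M5 σ) (M5 τ), R7 _ ((M5 σ).inter (M5 τ))]
    have h1 : (cyl σ : Set (Pt A)) ∩ cyl τ = ∅ := by
      ext p
      simp only [cyl, Set.mem_inter_iff, Set.mem_ofPred_eq, Set.mem_empty_iff_false, iff_false]
      rintro ⟨h1, h2⟩
      apply hστ
      rcases le_total σ.length τ.length with h | h
      · left
        have := C7 p.2 _ _ h
        rwa [h1, h2] at this
      · right
        have := C7 p.2 _ _ h
        rwa [h1, h2] at this
    rw [h1]
    exact nl_empty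
  · intro σ τ hστ
    unfold cy
    rw [R1 _ _ (M5 τ) (M5 σ)]
    have h1 : (cyl τ : Set (Pt A)) \ cyl σ = ∅ := by
      ext p
      simp only [cyl, Set.mem_sdiff, Set.mem_ofPred_eq, Set.mem_empty_iff_false, iff_false]
      rintro ⟨h1, h2⟩
      apply h2
      refine C8 p.2 σ τ.length ?_
      rw [h1]
      exact hστ
    rw [h1]
    exact nl_empty
  · intro r n
    have htop : (⨆ σ : List Bool, ⨆ _ : σ.length = n, (cy σ : RA A)) = ⊤ := by
      by_contra hcon
      have hne : (⨆ σ : List Bool, ⨆ _ : σ.length = n, (cy σ : RA A))ᶜ ≠ ⊥ := by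
        intro h
        exact hcon (compl_eq_bot.1 h)
      obtain ⟨p, hpp⟩ := R9 _ hne
      apply p.2.2
      have h1 : ∀ σ : List Bool, σ.length = n → nl (p.1 ∩ cyl σ) := by
        intro σ hσ
        have h2 : mkR p.1 ≤ mkR (cyl σ)ᶜ := by
          rw [R3 _ (M5 σ)]
          refine hpp.trans (compl_le_compl ?_)
          exact le_iSup₂_of_le (f := fun (σ : List Bool) (_ : σ.length = n) => (cy σ : RA A))
            σ hσ le_rfl
        rw [R1 _ _ p.2.1 (M5 σ).compl] at h2
        rwa [sdiff_compl] at h2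
      have h3 : ∀ᶠ g in ae A, ∀ σ : List Bool, ∀ _ : σ.length = n, cm (sec (p.1 ∩ cyl σ) g) = 0 :=
        ae_all fun σ => ae_all fun hσ => h1 σ hσ
      unfold nl
      filter_upwards [h3] with g hg
      have h4 : sec p.1 g ⊆ ⋃ σ : {σ : List Bool // σ.length = n}, sec (p.1 ∩ cyl σ.1) g := by
        intro x hx
        rw [Set.mem_iUnion]
        refine ⟨⟨res x n, C5 x n⟩, hx, ?_⟩
        simp only [cyl, Set.mem_ofPred_eq]
        rw [C5 x n]
      exact measure_mono_null h4 (measure_iUnion_null fun σ => hg σ.1 σ.2)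
    exact eq_iSup_inf r _ htop

end Pool.Agent.Lib.MP_a78e1f_lc.H22
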