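import Pool.Agent.Lib.MP_a78e1f_lc.U.Iface
import Pool.Agent.Lib.MP_6d445e_gt.H20.Idw

/-!
# KCN: the chain condition of the top of a chain of length `κ`, every element is old

Adaptation of `Pool.Agent.Lib.MP_6d445e_gt.H4.Kccw`.
-/

universe u

open Cardinal

namespace Pool.Agent.Lib.MP_a78e1f_lc.H22

open Pool.Agent.Lib.MP_100a6c_lc
open Pool.Agent.Lib.MP_e6fef2_lc
open Pool.Agent.Lib.MP_e6fef2_lc.H16 (AlgF algF small_sub old_of_supp)
open Pool.Agent.Lib.MP_6d445e_gt (Idw)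

/-- The chain condition of an algebra with a small dense set. -/
theorem kca_of_dense {κ : Cardinal.{u}} {I : Type u} [LinearOrder I] (hI : Idw κ I)
    {A : Type u} [CompleteBooleanAlgebra A] {M : Set A} (hMc : #M < κ)
    (hM : ∀ a : A, a ≠ ⊥ → ∃ m ∈ M, m ≠ ⊥ ∧ m ≤ a) : KCA I A := by
  intro a ha
  choose m hm hne hle using fun i => hM (a i) (ha i)
  let g : I → M := fun i => ⟨m i, hm i⟩
  have hcof : #M < κ.ord.cof := by rw [hI.reg.cof_ord]; exact hMc
  obtain ⟨y, hy⟩ := Cardinal.infinite_pigeonhole_card g κ hI.card.ge hI.reg.aleph0_le hcof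
  rw [← hI.card] at hy
  obtain ⟨φ⟩ := hy
  -- two different indices
  have hIinf : (1 : Cardinal.{u}) < #I := by
    rw [hI.card]
    exact lt_of_lt_of_le Cardinal.one_lt_aleph0 hI.unc.le
  obtain ⟨i, j, hij⟩ := (Cardinal.one_lt_iff_nontrivial.1 hIinf).exists_pair_ne
  have hgi : m (φ i) = y := congrArg Subtype.val (show g (φ i) = y from (φ i).2)
  have hgj : m (φ j) = y := congrArg Subtype.val (show g (φ j) = y from (φ j).2)
  refine ⟨φ i, φ j, fun h => hij (φ.injective (Subtype.ext h)), fun hbot => ?_⟩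
  apply hne (φ i)
  rw [← le_bot_iff, ← hbot]
  refine le_inf (hle (φ i)) ?_
  rw [hgi, ← hgj]
  exact hle (φ j)

/-- KCN: the chain condition of the top of a chain of length `κ`, and every element is old. -/
theorem kcn : KcnStatement.{u} := by
  intro κ I _ _ hI A _ f M hch hdp hMc hMd C _ e hT hDP
  classical
  have hAlg := all_alg.{u}
  obtain ⟨hbd, -, -, hS, hClo⟩ := Pool.Agent.Lib.MP_6d445e_gt.H20.idw.2 κ I hI
  -- countable sets are bounded
  have hctbl : ∀ s : Set I, s.Countable → ∃ k, ∀ i ∈ s, i < k := by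
    intro s hs
    exact hbd s (lt_of_le_of_lt (Cardinal.mk_le_aleph0_iff.2 hs.to_subtype) hI.unc)
  -- old elements are dense
  have hdense : ∀ c : C, c ≠ ⊥ → ∃ k, ∃ y : A k, e k y ≤ c ∧ e k y ≠ ⊥ := by
    intro c hc
    obtain ⟨d, hdc, hd, s, hs, -, hds⟩ := hDP c hc
    obtain ⟨k, hk⟩ := hctbl s hs
    obtain ⟨y, hy⟩ := old_of_supp hAlg hT s k (fun i hi => (hk i hi).le) fun i => prj (e i) d
    have hdy : d = e k y := hds.trans hy
    exact ⟨k, y, hdy ▸ hdc, hdy ▸ hd⟩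
  have hkca : ∀ i, KCA I (A i) := fun i =>
    kca_of_dense hI (hMc i) (hMd i)
  have FT : ∀ i, AlgF (e i) := fun i => algF hAlg (hT.ce i)
  have FC : ∀ i j, i ≤ j → AlgF (f i j) := fun i j h => algF hAlg (hch.ce i j h)
  have hmain : KCA I C := by
    intro c hc
    by_contra hcon
    have hdis : ∀ i j, i ≠ j → c i ⊓ c j = ⊥ := by
      intro i j hij
      by_contra h
      exact hcon ⟨i, j, hij, h⟩
    -- replace by old elements
    choose k y hle hne using fun i => hdense (c i) (hc i)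
    have hdis' : ∀ i j, i ≠ j → e (k i) (y i) ⊓ e (k j) (y j) = ⊥ := by
      intro i j hij
      have := inf_le_inf (hle i) (hle j)
      rw [hdis i j hij, le_bot_iff] at this
      exact this
    -- small subfamilies
    have h1 : ∀ β, ∃ Z : Set I, #Z < κ ∧ ∀ i, prj (e β) (e (k i) (y i)) ≤
        ⨆ z ∈ Z, prj (e β) (e (k z) (y z)) := fun β => small_sub hI.card (hkca β) _
    choose Z hZ hZs using h1
    have h2 : ∀ β, ∃ j, (∀ z ∈ Z β, z < j) ∧ ∀ z ∈ Z β, k z < j := by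
      intro β
      obtain ⟨j, hj⟩ := hbd (Z β) (hZ β)
      obtain ⟨j', hj'⟩ := hbd (k '' Z β) (lt_of_le_of_lt Cardinal.mk_image_le (hZ β))
      exact ⟨max j j', fun z hz => (hj z hz).trans_le (le_max_left _ _),
        fun z hz => (hj' _ ⟨z, hz, rfl⟩).trans_le (le_max_right _ _)⟩
    choose h hh1 hh2 using h2
    have hIne : Nonempty I := by
      rw [← Cardinal.mk_ne_zero_iff, hI.card]
      exact (Cardinal.aleph0_pos.trans hI.unc).ne'
    obtain ⟨i0⟩ := hIne
    obtain ⟨δ, -, hUC, hδ⟩ := hClo h i0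
    have hlim : Order.IsSuccLimit δ := by
      refine ⟨?_, ?_⟩
      · obtain ⟨m, hm, -⟩ := hUC ∅ Set.countable_empty (by simp)
        exact fun hmin => (hmin hm.le).not_gt hm
      · intro m hm
        obtain ⟨m', hm', hmm⟩ := hUC {m} (Set.countable_singleton m) (by
          intro j hj
          rw [Set.mem_singleton_iff.1 hj]
          exact hm.lt)
        exact hm.2 (hmm m rfl) hm'
    -- all indices are below δ
    have hkey : ∀ x : I, ∃ β < δ, x ∈ Z β := by
      intro x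
      set a : A δ := prj (e δ) (e (k x) (y x)) with ha
      have ha0 : a ≠ ⊥ := fun h => hne x (((FT δ).prj_bot _).1 h)
      obtain ⟨d, hda, hd, s, hs, -, hsδ, hds⟩ := hdp δ hlim a ha0
      obtain ⟨β, hβ, hsβ⟩ := hUC s hs hsδ
      -- `d` is old
      have hold : ∃ w : A β, d = f β δ w := by
        refine ⟨⨅ i : s, f i β (prj (f i δ) d), ?_⟩
        rw [(FC β δ hβ.le).iInf]
        conv_lhs => rw [hds]
        rw [iInf_subtype']
        exact iInf_congr fun i =>
          (hch.comp i β δ (hsβ i i.2).le hβ.le (prj (f i δ) d)).symm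
      obtain ⟨w, hw⟩ := hold
      have hw0 : w ≠ ⊥ := by
        rintro rfl
        exact hd (hw.trans (FC β δ hβ.le).bot)
      -- `w` is below the projection of `x`
      have hfa : f β δ w ≤ a := hw ▸ hda
      have hwle : w ≤ prj (e β) (e (k x) (y x)) := by
        have h3 : e (k x) (y x) ≤ e δ (f β δ (prj (e β) (e (k x) (y x)))) := by
          rw [hT.comp β δ hβ.le]
          exact (FT β).le_prj _
        have h4 : a ≤ f β δ (prj (e β) (e (k x) (y x))) := ((FT δ).prj_le _ _).2 h3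
        exact ((FC β δ hβ.le).le _ _).1 (hfa.trans h4)
      have h5 : w ⊓ ⨆ z ∈ Z β, prj (e β) (e (k z) (y z)) ≠ ⊥ := by
        rw [inf_eq_left.2 (hwle.trans (hZs β x))]
        exact hw0
      rw [inf_iSup₂_eq] at h5
      obtain ⟨z, hz, h6⟩ : ∃ z ∈ Z β, w ⊓ prj (e β) (e (k z) (y z)) ≠ ⊥ := by
        by_contra hc
        push Not at hc
        exact h5 (by simpa using hc)
      have hzδ : k z ≤ δ := ((hh2 β z hz).trans (hδ β hβ)).le
      have h7 : e β w ⊓ e (k z) (y z) ≠ ⊥ := fun h => h6 (((FT β).disj _ _).1 h)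
      have h8 : e δ (f (k z) δ (y z)) ⊓ e (k x) (y x) ≠ ⊥ := by
        intro h
        rw [(FT δ).disj] at h
        apply h7
        rw [← hT.comp β δ hβ.le, ← hT.comp (k z) δ hzδ, ← (FT δ).inf]
        have h9 : f β δ w ⊓ f (k z) δ (y z) = ⊥ := by
          rw [inf_comm, ← le_bot_iff, ← h]
          exact inf_le_inf_left _ hfa
        rw [h9, (FT δ).bot]
      rw [hT.comp (k z) δ hzδ] at h8
      have hzx : z = x := by
        by_contra hne
        exact h8 (hdis' z x hne)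
      exact ⟨β, hβ, hzx ▸ hz⟩
    obtain ⟨β, hβ, hx⟩ := hkey δ
    exact lt_irrefl δ ((hh1 β δ hx).trans (hδ β hβ))
  refine ⟨hmain, fun c => ?_⟩
  let T : Type u := {p : Σ i, A i // e p.1 p.2 ≤ c}
  obtain ⟨Z, hZ, hZs⟩ := small_sub hI.card hmain fun t : T => e t.1.1 t.1.2
  have hcle : c ≤ ⨆ z ∈ Z, e z.1.1 z.1.2 := by
    by_contra h
    have h1 : c \ ⨆ z ∈ Z, e z.1.1 z.1.2 ≠ ⊥ := fun h' => h (sdiff_eq_bot_iff.1 h')
    obtain ⟨k, y, hy, hy0⟩ := hdense _ h1
    have h2 : e k y ≤ ⨆ z ∈ Z, e z.1.1 z.1.2 := hZs ⟨⟨k, y⟩, hy.trans sdiff_le⟩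
    have h3 : e k y ≤ (⨆ z ∈ Z, e z.1.1 z.1.2)ᶜ := by
      rw [sdiff_eq] at hy
      exact hy.trans inf_le_right
    exact hy0 (le_bot_iff.1 (by
      have := le_inf h2 h3
      rwa [inf_compl_self] at this))
  obtain ⟨k, hk⟩ := hbd ((fun z : T => z.1.1) '' Z) (lt_of_le_of_lt Cardinal.mk_image_le hZ)
  refine ⟨k, ⨆ z : Z, f z.1.1.1 k z.1.1.2, ?_⟩
  rw [(FT k).iSup]
  apply le_antisymm
  · refine hcle.trans (iSup₂_le fun z hz => ?_)
    rw [← hT.comp z.1.1 k (hk _ ⟨z, hz, rfl⟩).le]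
    exact le_iSup (fun z : Z => e k (f z.1.1.1 k z.1.1.2)) ⟨z, hz⟩
  · refine iSup_le fun z => ?_
    rw [hT.comp z.1.1.1 k (hk _ ⟨z.1, z.2, rfl⟩).le]
    exact z.1.2

end Pool.Agent.Lib.MP_a78e1f_lc.H22
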